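import Pool.Agent.TH837.MX.Lower

/-!
Games with projection constraints: the constraint system for the lower bound.
-/

set_option autoImplicit false
set_option linter.unusedSectionVars false

namespace Pool.Agent.Y643.PG

open Finset
open Pool.Agent.TH837.MX

/-- the maps from `β` to `α` for which the number of preimages of each element has the
property `p` -/
def Fam (p : ℕ → Prop) (β α : Type) [Fintype β] [DecidableEq α] : Type :=
  {π : β → α // ∀ x, p (univ.filter fun y => π y = x).card}

noncomputable instance (p : ℕ → Prop) (β α : Type) [Fintype β] [Fintype α] [DecidableEq α] :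
    Fintype (Fam p β α) := by
  classical
  unfold Fam
  infer_instance

/-- constraints `(s, t, π)`: a source vertex, a target vertex and a map -/
abbrev Con (n : ℕ) (p : ℕ → Prop) (β α : Type) [Fintype β] [DecidableEq α] : Type :=
  Fin n × Fin n × Fam p β α

/-- labelings: labels in `β` for the `n` source vertices, and labels in `α` for the `n` target
vertices -/
abbrev Labeling (n : ℕ) (β α : Type) : Type := (Fin n → β) × (Fin n → α)

/-- the constraint `(s, t, π)` is satisfied if `π` maps the label of `s` to the label of `t` -/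
def Sats {n : ℕ} {p : ℕ → Prop} {β α : Type} [Fintype β] [DecidableEq α] (z : Labeling n β α)
    (e : Con n p β α) : Prop := e.2.2.1 (z.1 e.1) = z.2 e.2.1

open Classical in
/-- the total weight of the constraints which are satisfied by the labeling `z` -/
noncomputable def val {n : ℕ} {p : ℕ → Prop} {β α : Type} [Fintype β] [Fintype α] [DecidableEq α]
    (z : Labeling n β α) (w : Con n p β α → ℝ) : ℝ :=
  ∑ e ∈ univ.filter (Sats z), w e

open Classical in
/-- the weights of a game on the complete bipartite graph: there is one constraint for each pair of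
a source vertex `s` and a target vertex `t`, with the map `g s t`; it has weight one, and all other
constraints have weight zero -/
noncomputable def game {n : ℕ} {p : ℕ → Prop} {β α : Type} [Fintype β] [DecidableEq α]
    (g : Fin n → Fin n → Fam p β α) (e : Con n p β α) : ℝ := if e.2.2 = g e.1 e.2.1 then 1 else 0

/-- a randomised program (with the uniform distribution on `R`) whose value is at most the optimum
(for all nonnegative weights), and which for each satisfiable game with one constraint for each
of the `n ^ 2` pairs of a source and a target returns at least `ρ n ^ 2` with probability at least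
`q` -/
structure Approx {n : ℕ} {p : ℕ → Prop} {β α : Type} [Fintype β] [Fintype α] [DecidableEq α]
    (ρ q : ℝ) {R : Type} [Fintype R] (f : R → (Con n p β α → ℝ) → ℝ) : Prop where
  sound : ∀ (r : R) (w : Con n p β α → ℝ), (∀ e, 0 ≤ w e) → ∃ z : Labeling n β α, f r w ≤ val z w
  good : ∀ g : Fin n → Fin n → Fam p β α,
    (∃ z : Labeling n β α, ∀ s t, (g s t).1 (z.1 s) = z.2 t) →
    q * Nat.card R ≤ Nat.card {r : R // ρ * n ^ 2 ≤ f r (game g)}

section restrict

variable {Ω Ω' : Type}

/-- extension of the weights: some weights are replaced by zero -/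
noncomputable def ext (h : Ω → Option Ω') (w : Ω' → ℝ) (e : Ω) : ℝ := (h e).elim 0 w

theorem computes_ext (h : Ω → Option Ω') {f : (Ω → ℝ) → ℝ} {s : ℕ} (hf : Computes f s) :
    Computes (fun w => f (ext h w)) s := by
  obtain ⟨l, hl, hfl, hs⟩ := hf
  refine ⟨l.map fun g w => g (ext h w), ?_, List.mem_map.2 ⟨f, hfl, rfl⟩, by
    rwa [List.length_map]⟩
  clear hs hfl
  induction hl with
  | nil => exact Prog.nil
  | inp l e hl ih =>
    rw [List.map_cons]
    cases he : h e with
    | none =>
      have h1 : (fun w : Ω' → ℝ => ext h w e) = fun _ => 0 := by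
        funext w
        rw [ext, he]
        rfl
      rw [h1]
      exact Prog.cst _ 0 ih
    | some e' =>
      have h1 : (fun w : Ω' → ℝ => ext h w e) = fun w => w e' := by
        funext w
        rw [ext, he]
        rfl
      rw [h1]
      exact Prog.inp _ e' ih
  | cst l c hl ih => exact Prog.cst _ c ih
  | mx l f g hl hf hg ih =>
    exact Prog.mx _ _ _ ih (List.mem_map.2 ⟨f, hf, rfl⟩) (List.mem_map.2 ⟨g, hg, rfl⟩)
  | ad l f g hl hf hg ih =>
    exact Prog.ad _ _ _ ih (List.mem_map.2 ⟨f, hf, rfl⟩) (List.mem_map.2 ⟨g, hg, rfl⟩)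

end restrict

section

variable {n : ℕ} {p : ℕ → Prop} {β α : Type} [Fintype β] [Fintype α] [DecidableEq β]
  [DecidableEq α]

/-- permute the values -/
def post (σ : Equiv.Perm α) (π : Fam p β α) : Fam p β α :=
  ⟨fun y => σ (π.1 y), fun x => by
    have h := π.2 (σ.symm x)
    have h2 : (univ.filter fun y => σ (π.1 y) = x) = univ.filter fun y => π.1 y = σ.symm x := by
      ext y
      simp only [mem_filter, mem_univ, true_and]
      rw [Equiv.eq_symm_apply]
    rw [h2]
    exact h⟩

theorem post_apply (σ : Equiv.Perm α) (π : Fam p β α) (y : β) : (post σ π).1 y = σ (π.1 y) := rfl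

variable [AddCommGroup α]

/-- the shifts of a map -/
def shift (φ : Fam p β α) (c : α) : Fam p β α := post (Equiv.addLeft c) φ

theorem shift_apply (φ : Fam p β α) (c : α) (y : β) : (shift φ c).1 y = c + φ.1 y := rfl

theorem shift_injective [Nonempty β] (φ : Fam p β α) : Function.Injective (shift φ) := by
  intro c c' h
  obtain ⟨y⟩ := ‹Nonempty β›
  have h1 : (shift φ c).1 y = (shift φ c').1 y := by rw [h]
  rw [shift_apply, shift_apply] at h1
  exact add_right_cancel h1

open Classical in
/-- the system: source vertex, target vertex, and a shift `c` of the map `φ` -/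
noncomputable def sys (n : ℕ) (φ : Fam p β α) :
    Sys (Fin n × Fin n × α) β α Unit (Labeling n β α) n where
  a e := e.1
  b e := e.2.1
  Pl e y x _ := e.2.2 + φ.1 y = x
  Sat z := univ.filter fun e => e.2.2 + φ.1 (z.1 e.1) = z.2 e.2.1

open Classical in
theorem card_sat (φ : Fam p β α) (z : Labeling n β α) : ((sys n φ).Sat z).card = n ^ 2 := by
  have h : ((sys n φ).Sat z).card = (univ : Finset (Fin n × Fin n)).card := by
    refine card_bij (fun e _ => (e.1, e.2.1)) (fun _ _ => mem_univ _) ?_ ?_
    · rintro ⟨s, t, c⟩ he ⟨s', t', c'⟩ he' h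
      have h1 : c + φ.1 (z.1 s) = z.2 t := (mem_filter.1 he).2
      have h2 : c' + φ.1 (z.1 s') = z.2 t' := (mem_filter.1 he').2
      simp only [Prod.mk.injEq] at h
      obtain ⟨rfl, rfl⟩ := h
      have h3 : c = c' := by
        rw [← h2] at h1
        exact add_right_cancel h1
      rw [h3]
    · rintro ⟨s, t⟩ _
      exact ⟨(s, t, z.2 t - φ.1 (z.1 s)), mem_filter.2 ⟨mem_univ _, sub_add_cancel _ _⟩, rfl⟩
  rw [h, card_univ, Fintype.card_prod, Fintype.card_fin]
  ring

open Classical in
/-- the regularity of the system -/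
theorem reg {d : ℕ} (φ : Fam p β α) (hfib : ∀ x : α, (univ.filter fun y => φ.1 y = x).card ≤ d)
    (hd : d ≤ Fintype.card β) (hβ : 0 < Fintype.card β)
    (hα : 0 < Fintype.card α) (hβα : Fintype.card β ≤ d * Fintype.card α) :
    Reg (sys n φ) (d / Fintype.card β) (Fintype.card α) (d / Fintype.card β) (n ^ 2) where
  m0 := by exact_mod_cast hα
  ρ0 := by positivity
  τ0 := by positivity
  τ1 := by
    rw [div_le_one (by exact_mod_cast hβ)]
    exact_mod_cast hd
  rowA := by
    intro e x g
    have h1 : ((univ.filter fun y => (sys n φ).Pl e y x g).card : ℝ) ≤ d := by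
      have := hfib (x - e.2.2)
      have h2 : (univ.filter fun y => (sys n φ).Pl e y x g) =
          univ.filter fun y => φ.1 y = x - e.2.2 := by
        ext y
        simp only [mem_filter, mem_univ, true_and]
        exact (eq_sub_iff_add_eq'.symm : e.2.2 + φ.1 y = x ↔ φ.1 y = x - e.2.2)
      rw [h2]
      exact_mod_cast this
    have h0 : (0 : ℝ) < Fintype.card β := by exact_mod_cast hβ
    rw [div_mul_cancel₀ _ h0.ne']
    exact h1
  rowB := by
    intro e y g
    have h1 : (univ.filter fun x => (sys n φ).Pl e y x g).card = 1 := by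
      have h2 : (univ.filter fun x => (sys n φ).Pl e y x g) = {e.2.2 + φ.1 y} := by
        ext x
        simp only [mem_filter, mem_univ, true_and, mem_singleton]
        exact eq_comm
      rw [h2, card_singleton]
    rw [h1]
    have h0 : (0 : ℝ) < Fintype.card β := by exact_mod_cast hβ
    have h3 : (Fintype.card β : ℝ) ≤ d * Fintype.card α := by exact_mod_cast hβα
    rw [div_mul_eq_mul_div, le_div_iff₀ h0]
    push_cast
    linarith
  pair := by
    intro i j
    have h1 : (univ.filter fun e : Fin n × Fin n × α => (sys n φ).a e = i ∧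
        (sys n φ).b e = j).card ≤ (univ : Finset α).card := by
      refine card_le_card_of_injOn (fun e => e.2.2) (fun _ _ => mem_coe.2 (mem_univ _)) ?_
      intro e he e' he' h
      rw [mem_coe, mem_filter] at he he'
      obtain ⟨s, t, π⟩ := e
      obtain ⟨s', t', π'⟩ := e'
      have h1 : s = i := he.2.1
      have h2 : t = j := he.2.2
      have h1' : s' = i := he'.2.1
      have h2' : t' = j := he'.2.2
      have h3 : π = π' := h
      rw [h1, h2, h1', h2', h3]
    rw [card_univ] at h1
    exact_mod_cast h1
  sat := by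
    intro z
    rw [card_sat]
    push_cast
    exact le_rfl

open Classical in
/-- the index of a shift -/
noncomputable def index (φ : Fam p β α) (e : Con n p β α) : Option (Fin n × Fin n × α) :=
  if h : ∃ c, shift φ c = e.2.2 then some (e.1, e.2.1, h.choose) else none

theorem index_shift [Nonempty β] (φ : Fam p β α) (s t : Fin n) (c : α) :
    index φ (s, t, shift φ c) = some (s, t, c) := by
  have h : ∃ c', shift φ c' = ((s, t, shift φ c) : Con n p β α).2.2 := ⟨c, rfl⟩
  rw [index, dif_pos h]
  congr 3
  exact shift_injective φ h.choose_spec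

theorem ext_shift [Nonempty β] (φ : Fam p β α) (w : Fin n × Fin n × α → ℝ) (s t : Fin n) (c : α) :
    ext (index φ) w (s, t, shift φ c) = w (s, t, c) := by
  rw [ext, index_shift]
  rfl

theorem ext_of_not (φ : Fam p β α) (w : Fin n × Fin n × α → ℝ) (e : Con n p β α)
    (h : ¬ ∃ c, shift φ c = e.2.2) : ext (index φ) w e = 0 := by
  rw [ext, index, dif_neg h]
  rfl

theorem val_ext [Nonempty β] (φ : Fam p β α) (w : Fin n × Fin n × α → ℝ) (z : Labeling n β α) :
    val z (ext (index φ) w : Con n p β α → ℝ) = ∑ e ∈ (sys n φ).Sat z, w e := by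
  classical
  rw [val]
  symm
  refine sum_of_injOn (fun e => (e.1, e.2.1, shift φ e.2.2)) ?_ ?_ ?_ ?_
  · rintro ⟨s, t, c⟩ _ ⟨s', t', c'⟩ _ h
    simp only [Prod.mk.injEq] at h
    obtain ⟨rfl, rfl, h3⟩ := h
    rw [shift_injective φ h3]
  · rintro ⟨s, t, c⟩ he
    have h1 : c + φ.1 (z.1 s) = z.2 t := (mem_filter.1 (mem_coe.1 he)).2
    exact mem_coe.2 (mem_filter.2 ⟨mem_univ _, h1⟩)
  · rintro ⟨s, t, π⟩ he hne
    refine ext_of_not φ w _ ?_
    rintro ⟨c, hc⟩
    apply hne
    have h1 : π.1 (z.1 s) = z.2 t := (mem_filter.1 he).2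
    have hc' : shift φ c = π := hc
    refine ⟨(s, t, c), mem_coe.2 (mem_filter.2 ⟨mem_univ _, ?_⟩), ?_⟩
    · rw [← hc'] at h1
      exact h1
    · rw [← hc']
  · rintro ⟨s, t, c⟩ _
    exact (ext_shift φ w s t c).symm

open Classical in
/-- the lower bound for projection games -/
theorem game_lower {d : ℕ} (φ : Fam p β α)
    (hfib : ∀ x : α, (univ.filter fun y => φ.1 y = x).card ≤ d)
    (hd : d ≤ Fintype.card β) (hβ : 0 < Fintype.card β)
    (hα : 0 < Fintype.card α) (hβα : Fintype.card β ≤ d * Fintype.card α)
    {ε : ℝ} (hε : 0 < ε) (hε1 : ε ≤ 1) {R : Type} [Fintype R] [Nonempty R]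
    {f : R → (Con n p β α → ℝ) → ℝ}
    (hf : Approx (d / Fintype.card β + ε)
      ((2 : ℝ) ^ (-(gam (Fintype.card β * Fintype.card α) (1 / Fintype.card α) ε * n))) f)
    {s : ℕ} (hs : ∀ r, Computes (f r) s) :
    (2 : ℝ) ^ (gam (Fintype.card β * Fintype.card α) (1 / Fintype.card α) ε * n) ≤ s + 1 := by
  have hα' : (0 : ℝ) < Fintype.card α := by exact_mod_cast hα
  have hβ' : (0 : ℝ) < Fintype.card β := by exact_mod_cast hβ
  have hβne : Nonempty β := Fintype.card_pos_iff.1 hβ
  have hαne : Nonempty α := Fintype.card_pos_iff.1 hα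
  refine lower (S := sys n φ) (f := fun r w => f r (ext (index φ) w))
    (B := Fintype.card β * Fintype.card α)
    (ν := 1 / Fintype.card α) (reg φ hfib hd hβ hα hβα) hε hε1 (by positivity)
    (le_of_eq ?_) (by exact_mod_cast hα) (by positivity) ?_ ?_ (fun r w hw => ?_) (fun x => ?_)
    (fun r => computes_ext _ (hs r))
  · field_simp
  · have h1 : Fintype.card (Labeling n β α) = (Fintype.card β * Fintype.card α) ^ n := by
      simp only [Fintype.card_prod, Fintype.card_fun, Fintype.card_fin]
      rw [← mul_pow]
    rw [h1]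
    push_cast
    have h2 : (Fintype.card β : ℝ) * Fintype.card α ≤
        Real.exp (Fintype.card β * Fintype.card α) := by
      have := Real.add_one_le_exp ((Fintype.card β : ℝ) * Fintype.card α); linarith
    calc ((Fintype.card β : ℝ) * Fintype.card α) ^ n
        ≤ Real.exp (Fintype.card β * Fintype.card α) ^ n :=
          pow_le_pow_left₀ (by positivity) h2 n
      _ = _ := by rw [← Real.exp_nat_mul]; congr 1; ring
  · exact Fintype.card_pos
  · obtain ⟨z, hz⟩ := hf.sound r (ext (index φ) w) (fun e => by
      rw [ext]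
      cases index φ e with
      | none => exact le_rfl
      | some e' => exact hw e')
    exact ⟨z, hz.trans (le_of_eq (val_ext φ w z))⟩
  · have h1 := hf.good (fun s t => shift φ (x.2.1 t - φ.1 (x.1 s))) ⟨(x.1, x.2.1), fun s t => by
      rw [shift_apply, sub_add_cancel]⟩
    convert h1 using 6
    refine congrArg _ (funext fun e => ?_)
    obtain ⟨s, t, π⟩ := e
    by_cases h : ∃ c, shift φ c = π
    · obtain ⟨c, rfl⟩ := h
      rw [ext_shift, game]
      have h2 : ((s, t, c) ∈ (sys n φ).pl x) ↔
          ((s, t, shift φ c) : Con n p β α).2.2 = shift φ (x.2.1 t - φ.1 (x.1 s)) := by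
        rw [(shift_injective φ).eq_iff, eq_sub_iff_add_eq, Sys.pl, mem_filter]
        exact ⟨fun h => h.2, fun h => ⟨mem_univ _, h⟩⟩
      by_cases h3 : (s, t, c) ∈ (sys n φ).pl x
      · rw [if_pos h3, if_pos (h2.1 h3)]
      · rw [if_neg h3, if_neg fun h4 => h3 (h2.2 h4)]
    · rw [ext_of_not φ _ _ h, game, if_neg]
      intro h4
      exact h ⟨_, h4.symm⟩

end

end Pool.Agent.Y643.PG
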