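import Pool.Agent.Y643.PG.Upper

/-!
The law for projection games, and the two families of maps.
-/

set_option autoImplicit false
set_option linter.unusedSectionVars false

namespace Pool.Agent.Y643.PG

open Finset
open Pool.Agent.TH837.MX

variable {p : ℕ → Prop} {β α : Type} [Fintype β] [Fintype α] [DecidableEq β] [DecidableEq α]

theorem upper_law [Nonempty α] [Nonempty β] {d : ℕ}
    (hfib : ∀ (π : Fam p β α) (x : α), (univ.filter fun y => π.1 y = x).card = 0 ∨
      (univ.filter fun y => π.1 y = x).card = d) :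
    ∃ c : ℕ, ∀ n : ℕ, ∃ f : (Con n p β α → ℝ) → ℝ, Computes f (c * n ^ 2 + c) ∧
      ∀ w : Con n p β α → ℝ, (∀ e, 0 ≤ w e) →
        (∃ z : Labeling n β α, f w ≤ val z w) ∧
          ∀ z : Labeling n β α, d / Fintype.card β * val z w ≤ f w := by
  refine ⟨1 + Fintype.card (Fam p β α) + Fintype.card β * Fintype.card (Fam p β α) +
    Fintype.card β * Fintype.card α + Fintype.card β, fun n => ⟨prog n p β α, ?_, fun w hw =>
      ⟨prog_sound w hw, fun z => prog_good hfib Fintype.card_pos w hw z⟩⟩⟩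
  obtain ⟨l, h1, h2, h3⟩ := prog_computes (n := n) (p := p) (β := β) (α := α)
  refine ⟨l, h1, h2, h3.trans ?_⟩
  have h4 : n ≤ n ^ 2 := Nat.le_self_pow (by norm_num) n
  have h5 : Fintype.card β * (n * Fintype.card α) ≤ n ^ 2 * (Fintype.card β * Fintype.card α) := by
    calc _ = n * (Fintype.card β * Fintype.card α) := by ring
      _ ≤ _ := Nat.mul_le_mul_right _ h4
  have h6 : Fintype.card β * n ≤ n ^ 2 * Fintype.card β := by
    calc _ = n * Fintype.card β := by ring
      _ ≤ _ := Nat.mul_le_mul_right _ h4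
  nlinarith [Nat.zero_le (n ^ 2), Nat.zero_le (Fintype.card (Fam p β α)),
    Nat.zero_le (Fintype.card β * Fintype.card (Fam p β α)),
    Nat.zero_le (Fintype.card β * Fintype.card α)]

theorem brute_law [Nonempty α] [Nonempty β] :
    ∃ c : ℕ, ∀ n : ℕ, ∃ f : (Con n p β α → ℝ) → ℝ, Computes f (2 ^ (c * (n + 1))) ∧
      ∀ w : Con n p β α → ℝ, (∀ e, 0 ≤ w e) →
        (∃ z : Labeling n β α, f w ≤ val z w) ∧ ∀ z : Labeling n β α, val z w ≤ f w := by
  obtain ⟨P, hP⟩ : ∃ P, P = Fintype.card (Fam p β α) := ⟨_, rfl⟩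
  obtain ⟨b, hb⟩ : ∃ b, b = Fintype.card β * Fintype.card α := ⟨_, rfl⟩
  refine ⟨b + P + 4, fun n => ⟨brute n p β α, ?_, fun w hw => brute_exact w hw⟩⟩
  obtain ⟨l, h1, h2, h3⟩ := brute_computes (n := n) (p := p) (β := β) (α := α)
  refine ⟨l, h1, h2, h3.trans ?_⟩
  rw [← hP, ← hb]
  have h4 : n ^ 2 ≤ 2 ^ (2 * n) := by
    rw [mul_comm, pow_mul]
    exact Nat.pow_le_pow_left (Nat.lt_two_pow_self).le 2
  have h5 : P ≤ 2 ^ P := (Nat.lt_two_pow_self).le
  have h6 : b ^ n ≤ 2 ^ (b * n) := by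
    rw [pow_mul]
    exact Nat.pow_le_pow_left (Nat.lt_two_pow_self).le n
  have h7 : n ^ 2 * P ≤ 2 ^ (2 * n + P) := by
    rw [pow_add]; exact Nat.mul_le_mul h4 h5
  have h8 : b ^ n * (n ^ 2 * P) ≤ 2 ^ (b * n + (2 * n + P)) := by
    rw [pow_add 2 (b * n)]; exact Nat.mul_le_mul h6 h7
  have h9 : ∀ k, k ≤ b * n + (2 * n + P) → 2 ^ k ≤ 2 ^ (b * n + (2 * n + P)) :=
    fun k hk => Nat.pow_le_pow_right (by norm_num) hk
  have h10 := h9 0 (Nat.zero_le _)
  have h11 := h9 (2 * n + P) (by omega)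
  have h12 := h9 (b * n) (by omega)
  have h13 : 4 * 2 ^ (b * n + (2 * n + P)) ≤ 2 ^ ((b + P + 4) * (n + 1)) := by
    have : (4 : ℕ) * 2 ^ (b * n + (2 * n + P)) = 2 ^ (b * n + (2 * n + P) + 2) := by
      rw [pow_add 2 (b * n + (2 * n + P)) 2]; ring
    rw [this]
    refine Nat.pow_le_pow_right (by norm_num) ?_
    nlinarith [Nat.zero_le (P * n), Nat.zero_le (b * n), Nat.zero_le n, Nat.zero_le b]
  rw [pow_zero] at h10
  omega

theorem lower_law [AddCommGroup α] {d : ℕ} (φ : Fam p β α)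
    (hfib : ∀ x : α, (univ.filter fun y => φ.1 y = x).card ≤ d)
    (hd : d ≤ Fintype.card β) (hβ : 0 < Fintype.card β)
    (hα : 0 < Fintype.card α) (hβα : Fintype.card β ≤ d * Fintype.card α)
    {ε : ℝ} (hε : 0 < ε) (hε1 : ε ≤ 1) :
    ∃ γ : ℝ, 0 < γ ∧ ∀ (n : ℕ) (R : Type) [Fintype R] [Nonempty R]
      (f : R → (Con n p β α → ℝ) → ℝ), Approx (d / Fintype.card β + ε) (2 ^ (-(γ * n))) f →
      ∀ s : ℕ, (∀ r, Computes (f r) s) → (2 : ℝ) ^ (γ * n) ≤ s + 1 := by
  have hα' : (0 : ℝ) < Fintype.card α := by exact_mod_cast hα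
  exact ⟨gam (Fintype.card β * Fintype.card α) (1 / Fintype.card α) ε,
    gam_pos (by positivity) (by positivity) hε, fun n R _ _ f hf s hs =>
      game_lower φ hfib hd hβ hα hβα hε hε1 hf hs⟩

section dto1

variable {d R : ℕ}

theorem fib_eq (π : Fam (fun k => k ≤ d) (Fin (d * R)) (Fin R)) (x : Fin R) :
    (univ.filter fun y => π.1 y = x).card = d := by
  have h1 : ∑ x : Fin R, (univ.filter fun y => π.1 y = x).card = ∑ _x : Fin R, d := by
    rw [sum_const, card_univ, Fintype.card_fin, smul_eq_mul]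
    have h2 := card_eq_sum_card_fiberwise (f := π.1) (s := (univ : Finset (Fin (d * R))))
      (t := univ) (fun _ _ => mem_univ _)
    rw [card_univ, Fintype.card_fin] at h2
    rw [← h2, mul_comm]
  exact (sum_eq_sum_iff_of_le fun x _ => π.2 x).1 h1 x (mem_univ _)

theorem fam_nonempty (d R : ℕ) : Nonempty (Fam (fun k => k ≤ d) (Fin (d * R)) (Fin R)) := by
  refine ⟨⟨fun y => (finProdFinEquiv.symm y).2, fun x => ?_⟩⟩
  have h : (univ.filter fun y : Fin (d * R) => (finProdFinEquiv.symm y).2 = x).card ≤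
      (univ : Finset (Fin d)).card := by
    refine card_le_card_of_injOn (fun y => (finProdFinEquiv.symm y).1)
      (fun _ _ => mem_coe.2 (mem_univ _)) ?_
    intro y hy y' hy' h
    rw [mem_coe, mem_filter] at hy hy'
    refine finProdFinEquiv.symm.injective (Prod.ext h ?_)
    rw [hy.2, hy'.2]
  rwa [card_univ, Fintype.card_fin] at h

end dto1

section twoto1

theorem fam2_nonempty {q : ℕ} (hq : Even q) :
    Nonempty (Fam (fun k => k = 0 ∨ k = 2) (Fin q) (Fin q)) := by
  obtain ⟨k, hk⟩ := hq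
  have hk2 : q = 2 * k := by omega
  subst hk2
  clear hk
  refine ⟨⟨fun y => ⟨((finProdFinEquiv.symm y).2 : ℕ), by
    have := (finProdFinEquiv.symm y).2.2; omega⟩, fun x => ?_⟩⟩
  by_cases hx : (x : ℕ) < k
  · right
    have h : (univ.filter fun y : Fin (2 * k) => (⟨((finProdFinEquiv.symm y).2 : ℕ), by
        have := (finProdFinEquiv.symm y).2.2; omega⟩ : Fin (2 * k)) = x).card =
        (univ : Finset (Fin 2)).card := by
      refine card_bij (fun y _ => (finProdFinEquiv.symm y).1) (fun _ _ => mem_univ _) ?_ ?_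
      · intro y hy y' hy' h
        rw [mem_filter] at hy hy'
        refine finProdFinEquiv.symm.injective (Prod.ext h (Fin.ext ?_))
        have h1 := congrArg Fin.val hy.2
        have h2 := congrArg Fin.val hy'.2
        simp only at h1 h2
        rw [h1, h2]
      · intro i _
        refine ⟨finProdFinEquiv (i, ⟨x, hx⟩), ?_, by rw [Equiv.symm_apply_apply]⟩
        rw [mem_filter]
        refine ⟨mem_univ _, Fin.ext ?_⟩
        simp
    rw [h, card_univ, Fintype.card_fin]
  · left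
    rw [card_eq_zero, filter_eq_empty_iff]
    intro y _ h
    have h1 := congrArg Fin.val h
    have h2 := (finProdFinEquiv.symm y).2.2
    simp only at h1
    omega

end twoto1

end Pool.Agent.Y643.PG
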