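import Pool.Agent.TH837.MX.Lower

/-!
Small-set expansion for (max,+) programs.
-/

set_option autoImplicit false
set_option linter.unusedSectionVars false

namespace Pool.Agent.Y643.PG.SSE

open Finset
open Pool.Agent.TH837.MX

/-- one side of the graph: `k m` vertices -/
abbrev Side (m k : ℕ) : Type := Fin m × Fin k

/-- the weight inside the vertex set which consists of `A` on the first and `B` on the second
side -/
def inside {m k : ℕ} (A B : Finset (Side m k)) (w : Side m k × Side m k → ℝ) : ℝ :=
  ∑ e ∈ A ×ˢ B, w e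

/-- a labeling of the `k m` vertices of a side with `k` labels, each of which is used `m` times -/
def Balanced {m k : ℕ} (x : Side m k → Fin k) : Prop :=
  ∀ i, (univ.filter fun u => x u = i).card = m

/-- the graph in which two vertices of different sides are adjacent if they have the same label:
the disjoint union of `k` complete bipartite graphs -/
def blocks {m k : ℕ} (x y : Side m k → Fin k) (e : Side m k × Side m k) : ℝ :=
  if x e.1 = y e.2 then 1 else 0

/-- a randomised program (with the uniform distribution on `R`) whose value is at most the largest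
weight inside a set of `2 m` vertices (for all nonnegative weights), and which for each disjoint union
of `k` complete bipartite graphs with `m + m` vertices returns at least `ρ m ^ 2` with probability
at least `q` -/
structure Approx {m k : ℕ} (ρ q : ℝ) {R : Type} [Fintype R]
    (f : R → (Side m k × Side m k → ℝ) → ℝ) : Prop where
  sound : ∀ (r : R) (w : Side m k × Side m k → ℝ), (∀ e, 0 ≤ w e) →
    ∃ A B : Finset (Side m k), A.card + B.card = 2 * m ∧ f r w ≤ inside A B w
  good : ∀ x y : Side m k → Fin k, Balanced x → Balanced y →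
    q * Nat.card R ≤ Nat.card {r : R // ρ * m ^ 2 ≤ f r (blocks x y)}

variable {m k : ℕ}

/-- the sets of `2 m` vertices -/
abbrev Sets (m k : ℕ) : Type :=
  {z : Finset (Side m k) × Finset (Side m k) // z.1.card + z.2.card = 2 * m}

/-- the system: each group of `k` vertices gets a permutation of the labels -/
def sys (m k : ℕ) : Sys (Side m k × Side m k) (Equiv.Perm (Fin k)) (Equiv.Perm (Fin k)) Unit
    (Sets m k) m where
  a e := e.1.1
  b e := e.2.1
  Pl e σ τ _ := σ e.1.2 = τ e.2.2
  Sat z := z.1.1 ×ˢ z.1.2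

open Classical in
theorem card_perm (i j : Fin k) :
    (univ.filter fun σ : Equiv.Perm (Fin k) => σ i = j).card * k = Fintype.card (Equiv.Perm (Fin k)) := by
  have h1 : ∀ j' : Fin k, (univ.filter fun σ : Equiv.Perm (Fin k) => σ i = j').card =
      (univ.filter fun σ : Equiv.Perm (Fin k) => σ i = j).card := by
    intro j'
    refine card_bij (fun σ _ => σ.trans (Equiv.swap j' j)) ?_ ?_ ?_
    · intro σ hσ
      rw [mem_filter] at hσ ⊢
      refine ⟨mem_univ _, ?_⟩
      rw [Equiv.trans_apply, hσ.2, Equiv.swap_apply_left]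
    · intro σ _ σ' _ h
      ext u
      have h2 := congrArg (fun e : Equiv.Perm (Fin k) => e u) h
      simp only [Equiv.trans_apply] at h2
      rw [(Equiv.swap j' j).injective h2]
    · intro σ hσ
      rw [mem_filter] at hσ
      refine ⟨σ.trans (Equiv.swap j' j), ?_, ?_⟩
      · rw [mem_filter]
        refine ⟨mem_univ _, ?_⟩
        rw [Equiv.trans_apply, hσ.2, Equiv.swap_apply_right]
      · ext u
        simp [Equiv.trans_apply]
  have h2 : Fintype.card (Equiv.Perm (Fin k)) =
      ∑ j' : Fin k, (univ.filter fun σ : Equiv.Perm (Fin k) => σ i = j').card := by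
    rw [← card_univ, card_eq_sum_card_fiberwise (f := fun σ : Equiv.Perm (Fin k) => σ i)
      (t := univ) (fun _ _ => mem_univ _)]
  rw [h2, sum_congr rfl fun j' _ => h1 j', sum_const, card_univ, Fintype.card_fin, smul_eq_mul,
    mul_comm]

open Classical in
theorem card_perm' (i j : Fin k) :
    ((univ.filter fun σ : Equiv.Perm (Fin k) => σ i = j).card : ℝ) =
      1 / k * Fintype.card (Equiv.Perm (Fin k)) := by
  have hk : 0 < k := i.pos
  have h := card_perm i j
  have h' : ((univ.filter fun σ : Equiv.Perm (Fin k) => σ i = j).card : ℝ) * k =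
      Fintype.card (Equiv.Perm (Fin k)) := by exact_mod_cast h
  rw [← h']
  field_simp

open Classical in
theorem reg (hk : 1 ≤ k) : Reg (sys m k) (1 / k) (k ^ 2) (1 / k ^ 2) (k * m ^ 2) where
  m0 := by positivity
  ρ0 := by positivity
  τ0 := by positivity
  τ1 := by
    have h1 : (1 : ℝ) ≤ k := by exact_mod_cast hk
    rw [div_le_one (by positivity)]
    exact one_le_pow₀ h1
  rowA := by
    intro e τ g
    have h := card_perm' e.1.2 (τ e.2.2)
    refine le_of_eq (Eq.trans ?_ h)
    congr 2
    ext σ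
    simp only [mem_filter]
    rfl
  rowB := by
    intro e σ g
    have h := card_perm' e.2.2 (σ e.1.2)
    refine le_of_eq (Eq.trans ?_ h)
    congr 2
    ext τ
    simp only [mem_filter]
    exact and_congr_right fun _ => (eq_comm : σ e.1.2 = τ e.2.2 ↔ τ e.2.2 = σ e.1.2)
  pair := by
    intro i j
    have h1 : (univ.filter fun e : Side m k × Side m k => (sys m k).a e = i ∧
        (sys m k).b e = j).card ≤ (univ : Finset (Fin k × Fin k)).card := by
      refine card_le_card_of_injOn (fun e => (e.1.2, e.2.2)) (fun _ _ => mem_coe.2 (mem_univ _)) ?_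
      intro e he e' he' h
      rw [mem_coe, mem_filter] at he he'
      obtain ⟨⟨a, i1⟩, ⟨b, j1⟩⟩ := e
      obtain ⟨⟨a', i1'⟩, ⟨b', j1'⟩⟩ := e'
      have h1 : a = i := he.2.1
      have h2 : b = j := he.2.2
      have h1' : a' = i := he'.2.1
      have h2' : b' = j := he'.2.2
      simp only [Prod.mk.injEq] at h
      rw [h1, h2, h1', h2', h.1, h.2]
    rw [card_univ, Fintype.card_prod, Fintype.card_fin] at h1
    have h2 : ((univ.filter fun e : Side m k × Side m k => (sys m k).a e = i ∧
        (sys m k).b e = j).card : ℝ) ≤ ((k * k : ℕ) : ℝ) := by exact_mod_cast h1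
    refine h2.trans (le_of_eq ?_)
    push_cast
    ring
  sat := by
    intro z
    have hk' : (0 : ℝ) < k := by exact_mod_cast hk
    have h1 : (((sys m k).Sat z).card : ℝ) ≤ m ^ 2 := by
      have h2 : ((sys m k).Sat z).card = z.1.1.card * z.1.2.card := card_product _ _
      have h3 : (z.1.1.card : ℝ) + z.1.2.card = 2 * m := by exact_mod_cast z.2
      rw [h2]
      push_cast
      nlinarith [sq_nonneg ((z.1.1.card : ℝ) - z.1.2.card)]
    calc 1 / (k : ℝ) * ((sys m k).Sat z).card ≤ 1 / k * m ^ 2 :=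
          mul_le_mul_of_nonneg_left h1 (by positivity)
      _ = _ := by field_simp

theorem balanced_perm (σ : Fin m → Equiv.Perm (Fin k)) :
    Balanced fun u : Side m k => σ u.1 u.2 := by
  intro i
  have h : (univ.filter fun u : Side m k => σ u.1 u.2 = i).card = (univ : Finset (Fin m)).card := by
    refine card_bij (fun u _ => u.1) (fun _ _ => mem_univ _) ?_ ?_
    · rintro ⟨a, j⟩ hu ⟨a', j'⟩ hu' h
      rw [mem_filter] at hu hu'
      have h1 : a = a' := h
      subst h1
      have h2 : σ a j = σ a j' := hu.2.trans hu'.2.symm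
      rw [(σ a).injective h2]
    · intro a _
      exact ⟨(a, (σ a).symm i), mem_filter.2 ⟨mem_univ _, (σ a).apply_symm_apply i⟩, rfl⟩
  rw [h, card_univ, Fintype.card_fin]

/-- the exponent -/
noncomputable def gm (k : ℕ) (ε : ℝ) : ℝ := gam (2 * k) (1 / k) (ε / k)

theorem gm_pos (hk : 1 ≤ k) {ε : ℝ} (hε : 0 < ε) : 0 < gm k ε := by
  have hk' : (0 : ℝ) < k := by exact_mod_cast hk
  exact gam_pos (by positivity) (by positivity) (by positivity)

theorem sse_lower (hk : 1 ≤ k) {ε : ℝ} (hε : 0 < ε) (hε1 : ε ≤ 1) {R : Type} [Fintype R]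
    [Nonempty R] {f : R → (Side m k × Side m k → ℝ) → ℝ}
    (hf : Approx (1 / k + ε) ((2 : ℝ) ^ (-(gm k ε * m))) f)
    {s : ℕ} (hs : ∀ r, Computes (f r) s) : (2 : ℝ) ^ (gm k ε * m) ≤ s + 1 := by
  classical
  have hk' : (1 : ℝ) ≤ k := by exact_mod_cast hk
  have hk0 : (0 : ℝ) < k := by linarith
  refine lower (S := sys m k) (B := 2 * k) (ν := 1 / k) (reg hk) (ε := ε / k) (by positivity)
    ?_ (by positivity) (le_of_eq ?_) (one_le_pow₀ hk') (by positivity) ?_ ?_
    (fun r w hw => ?_) (fun x => ?_) hs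
  · rw [div_le_one hk0]; linarith
  · field_simp
  · have h1 : Fintype.card (Sets m k) ≤
        Fintype.card (Finset (Side m k) × Finset (Side m k)) := Fintype.card_subtype_le _
    have h2 : Fintype.card (Finset (Side m k) × Finset (Side m k)) = 2 ^ (2 * (m * k)) := by
      simp only [Fintype.card_prod, Fintype.card_finset, Fintype.card_fin]
      rw [← pow_add]
      congr 1
      ring
    rw [h2] at h1
    calc (Fintype.card (Sets m k) : ℝ) ≤ ((2 ^ (2 * (m * k)) : ℕ) : ℝ) := by exact_mod_cast h1
      _ = (2 : ℝ) ^ (2 * (m * k)) := by push_cast; rfl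
      _ ≤ (Real.exp 1) ^ (2 * (m * k)) := by
          refine pow_le_pow_left₀ (by norm_num) ?_ _
          have := Real.add_one_le_exp (1 : ℝ); linarith
      _ = Real.exp (2 * k * m) := by
          rw [← Real.exp_nat_mul]; congr 1; push_cast; ring
  · exact Fintype.card_pos
  · obtain ⟨A, B, h1, h2⟩ := hf.sound r w hw
    exact ⟨⟨(A, B), h1⟩, h2⟩
  · have h1 := hf.good _ _ (balanced_perm x.1) (balanced_perm x.2.1)
    have h2 : (1 / (k : ℝ) ^ 2 + ε / k) * (k * (m : ℝ) ^ 2) = (1 / k + ε) * m ^ 2 := by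
      field_simp
    rw [h2]
    have h0 : gam (2 * k) (1 / k) (ε / k) = gm k ε := rfl
    rw [h0]
    convert h1 using 6
    refine congrArg _ (funext fun e => ?_)
    rw [blocks]
    have h3 : e ∈ (sys m k).pl x ↔ x.1 e.1.1 e.1.2 = x.2.1 e.2.1 e.2.2 := by
      rw [Sys.pl, mem_filter]
      exact ⟨fun h => h.2, fun h => ⟨mem_univ _, h⟩⟩
    by_cases h4 : e ∈ (sys m k).pl x
    · rw [if_pos h4, if_pos (h3.1 h4)]
    · rw [if_neg h4, if_neg fun h5 => h4 (h3.2 h5)]

/-- the vertices in the place `i` of their group -/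
def place (m : ℕ) {k : ℕ} (i : Fin k) : Finset (Side m k) := univ ×ˢ {i}

theorem card_place (i : Fin k) : (place m i).card = m := by
  rw [place, card_product, card_univ, Fintype.card_fin, card_singleton, mul_one]

/-- the program of linear size -/
noncomputable def prog (m k : ℕ) : (Side m k × Side m k → ℝ) → ℝ :=
  maxTot ((univ : Finset (Fin k × Fin k)).toList.map fun ij => place m ij.1 ×ˢ place m ij.2)

theorem prog_computes : Computes (prog m k) ((2 * m ^ 2 + 1) * k ^ 2 + 1) := by
  obtain ⟨l, h1, h2, h3⟩ := computes_maxTot ((univ : Finset (Fin k × Fin k)).toList.map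
    fun ij => place m ij.1 ×ˢ place m ij.2)
  refine ⟨l, h1, h2, h3.trans (le_of_eq ?_)⟩
  rw [List.length_map, length_toList, List.map_map, sum_map_toList]
  simp only [Function.comp_apply, card_product, card_place, sum_const, card_univ,
    Fintype.card_prod, Fintype.card_fin, smul_eq_mul]
  ring

theorem prog_sound (hk : 1 ≤ k) (w : Side m k × Side m k → ℝ) (hw : ∀ e, 0 ≤ w e) :
    ∃ A B : Finset (Side m k), A.card + B.card = 2 * m ∧ prog m k w ≤ inside A B w := by
  rcases maxTot_le (As := (univ : Finset (Fin k × Fin k)).toList.map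
    fun ij => place m ij.1 ×ˢ place m ij.2) w with h | ⟨A, hA, h⟩
  · refine ⟨place m ⟨0, hk⟩, place m ⟨0, hk⟩, by rw [card_place]; ring, ?_⟩
    rw [prog, h]
    exact sum_nonneg fun e _ => hw e
  · obtain ⟨ij, _, rfl⟩ := List.mem_map.1 hA
    refine ⟨place m ij.1, place m ij.2, by rw [card_place, card_place]; ring, ?_⟩
    rw [prog, h]
    exact le_rfl

theorem prog_good (w : Side m k × Side m k → ℝ) :
    (∑ e, w e) ≤ k ^ 2 * prog m k w := by
  have h1 : ∀ ij : Fin k × Fin k, inside (place m ij.1) (place m ij.2) w ≤ prog m k w := fun ij =>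
    le_maxTot (w := w) _ (List.mem_map.2 ⟨ij, by simp, rfl⟩)
  have h2 : ∑ ij : Fin k × Fin k, inside (place m ij.1) (place m ij.2) w = ∑ e, w e := by
    rw [← sum_fiberwise univ (fun e : Side m k × Side m k => (e.1.2, e.2.2)) w]
    refine sum_congr rfl fun ij _ => ?_
    rw [inside]
    refine sum_congr ?_ fun _ _ => rfl
    ext e
    simp [place, Prod.ext_iff, eq_comm]
  rw [← h2]
  calc _ ≤ ∑ _ij : Fin k × Fin k, prog m k w := sum_le_sum fun ij _ => h1 ij
    _ = _ := by
      rw [sum_const, card_univ, Fintype.card_prod, Fintype.card_fin, nsmul_eq_mul]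
      push_cast
      ring

/-- brute force -/
noncomputable def brute (m k : ℕ) : (Side m k × Side m k → ℝ) → ℝ :=
  maxTot ((univ : Finset (Sets m k)).toList.map fun z => z.1.1 ×ˢ z.1.2)

theorem brute_computes : Computes (brute m k) (2 ^ (4 * (m * k) + 2)) := by
  obtain ⟨l, h1, h2, h3⟩ := computes_maxTot ((univ : Finset (Sets m k)).toList.map
    fun z => z.1.1 ×ˢ z.1.2)
  refine ⟨l, h1, h2, h3.trans ?_⟩
  obtain ⟨N, hN⟩ : ∃ N, N = m * k := ⟨_, rfl⟩
  have hc : Fintype.card (Side m k × Side m k) = N ^ 2 := by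
    simp only [Fintype.card_prod, Fintype.card_fin, hN]
    ring
  have hz : Fintype.card (Sets m k) ≤ 2 ^ (2 * N) := by
    refine (Fintype.card_subtype_le _).trans (le_of_eq ?_)
    simp only [Fintype.card_prod, Fintype.card_finset, Fintype.card_fin, hN]
    rw [← pow_add]
    congr 1
    ring
  rw [List.length_map, length_toList, List.map_map, card_univ, ← hN]
  have h6 : ∑ z : Sets m k, (Finset.card ∘ fun z : Sets m k => z.1.1 ×ˢ z.1.2) z ≤
      Fintype.card (Sets m k) * N ^ 2 := by
    calc _ ≤ ∑ _z : Sets m k, Fintype.card (Side m k × Side m k) :=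
          sum_le_sum fun z _ => card_le_univ _
      _ = _ := by rw [sum_const, card_univ, smul_eq_mul, hc]
  rw [← sum_map_toList] at h6
  have h7 : N ^ 2 ≤ 2 ^ (2 * N) := by
    rw [mul_comm, pow_mul]
    exact Nat.pow_le_pow_left (Nat.lt_two_pow_self).le 2
  have h8 : Fintype.card (Sets m k) * N ^ 2 ≤ 2 ^ (4 * N) := by
    have : 2 ^ (4 * N) = 2 ^ (2 * N) * 2 ^ (2 * N) := by rw [← pow_add]; congr 1; ring
    rw [this]
    exact Nat.mul_le_mul hz h7
  have h9 : 2 ^ (2 * N) ≤ 2 ^ (4 * N) := Nat.pow_le_pow_right (by norm_num) (by omega)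
  have h10 : 1 ≤ 2 ^ (4 * N) := Nat.one_le_two_pow
  have h11 : 2 ^ (4 * N + 2) = 4 * 2 ^ (4 * N) := by rw [pow_add]; ring
  rw [h11, hc]
  calc _ ≤ 1 + N ^ 2 + 2 ^ (4 * N) + 2 ^ (2 * N) :=
        Nat.add_le_add (Nat.add_le_add_left (h6.trans h8) _) hz
    _ ≤ _ := by omega

theorem brute_exact (hk : 1 ≤ k) (w : Side m k × Side m k → ℝ) (hw : ∀ e, 0 ≤ w e) :
    (∃ A B : Finset (Side m k), A.card + B.card = 2 * m ∧ brute m k w ≤ inside A B w) ∧
      ∀ A B : Finset (Side m k), A.card + B.card = 2 * m → inside A B w ≤ brute m k w := by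
  constructor
  · rcases maxTot_le (As := (univ : Finset (Sets m k)).toList.map
      fun z => z.1.1 ×ˢ z.1.2) w with h | ⟨A, hA, h⟩
    · refine ⟨place m ⟨0, hk⟩, place m ⟨0, hk⟩, by rw [card_place]; ring, ?_⟩
      rw [brute, h]
      exact sum_nonneg fun e _ => hw e
    · obtain ⟨z, _, rfl⟩ := List.mem_map.1 hA
      exact ⟨z.1.1, z.1.2, z.2, by rw [brute, h]; exact le_rfl⟩
  · intro A B h
    exact le_maxTot (As := (univ : Finset (Sets m k)).toList.map
      fun z => z.1.1 ×ˢ z.1.2) (w := w) _ (List.mem_map.2 ⟨⟨(A, B), h⟩, by simp, rfl⟩)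

end Pool.Agent.Y643.PG.SSE
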