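import Pool.Agent.Y643.PG.Game

/-!
Nested (max,+) programs for games with projection constraints.
-/

set_option autoImplicit false
set_option linter.unusedSectionVars false

namespace Pool.Agent.Y643.PG

open Finset
open Pool.Agent.TH837.MX

section general

variable {Ω : Type}

/-- maximum of a list of functions and zero -/
noncomputable def maxL (gs : List ((Ω → ℝ) → ℝ)) (w : Ω → ℝ) : ℝ :=
  gs.foldr (fun g a => max (g w) a) 0

/-- sum of a list of functions -/
noncomputable def addL (gs : List ((Ω → ℝ) → ℝ)) (w : Ω → ℝ) : ℝ :=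
  gs.foldr (fun g a => g w + a) 0

theorem le_maxL {gs : List ((Ω → ℝ) → ℝ)} {w : Ω → ℝ} : ∀ g ∈ gs, g w ≤ maxL gs w := by
  induction gs with
  | nil => simp
  | cons g gs ih =>
    intro g' hg'
    have h : maxL (g :: gs) w = max (g w) (maxL gs w) := rfl
    rw [h]
    rcases List.mem_cons.1 hg' with rfl | hg'
    · exact le_max_left _ _
    · exact (ih g' hg').trans (le_max_right _ _)

theorem maxL_cases {gs : List ((Ω → ℝ) → ℝ)} (w : Ω → ℝ) :
    maxL gs w = 0 ∨ ∃ g ∈ gs, maxL gs w = g w := by
  induction gs with
  | nil => left; rfl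
  | cons g gs ih =>
    have h : maxL (g :: gs) w = max (g w) (maxL gs w) := rfl
    rcases le_total (g w) (maxL gs w) with h1 | h1
    · rw [h, max_eq_right h1]
      rcases ih with h2 | ⟨g', hg', h2⟩
      · exact Or.inl h2
      · exact Or.inr ⟨g', List.mem_cons_of_mem _ hg', h2⟩
    · rw [h, max_eq_left h1]
      exact Or.inr ⟨g, by simp, rfl⟩

theorem addL_eq (gs : List ((Ω → ℝ) → ℝ)) (w : Ω → ℝ) : addL gs w = (gs.map fun g => g w).sum := by
  induction gs with
  | nil => rfl
  | cons g gs ih =>
    have h : addL (g :: gs) w = g w + addL gs w := rfl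
    rw [h, ih, List.map_cons, List.sum_cons]

/-- a list of functions is appended one after the other -/
theorem many {ι : Type} (base : List ((Ω → ℝ) → ℝ)) (F : ι → (Ω → ℝ) → ℝ) (c : ℕ)
    (step : ∀ i l, Prog l → (∀ f ∈ base, f ∈ l) → ∃ l', Prog l' ∧ (∀ f ∈ l, f ∈ l') ∧
      l'.length = l.length + c ∧ F i ∈ l') (is : List ι) :
    ∀ l, Prog l → (∀ f ∈ base, f ∈ l) → ∃ l', Prog l' ∧ (∀ f ∈ l, f ∈ l') ∧
      l'.length = l.length + is.length * c ∧ ∀ i ∈ is, F i ∈ l' := by
  induction is with
  | nil => intro l hl _; exact ⟨l, hl, fun _ h => h, by simp, by simp⟩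
  | cons i is ih =>
    intro l hl hb
    obtain ⟨l₁, h1, h2, h3, h4⟩ := ih l hl hb
    obtain ⟨l₂, h5, h6, h7, h8⟩ := step i l₁ h1 fun f hf => h2 f (hb f hf)
    refine ⟨l₂, h5, fun f hf => h6 f (h2 f hf), ?_, ?_⟩
    · rw [h7, h3, List.length_cons]; ring
    · intro j hj
      rcases List.mem_cons.1 hj with rfl | hj
      · exact h8
      · exact h6 _ (h4 j hj)

/-- the maximum over `i` of the sums over `j` of the maxima over `k` of the total weights of sets -/
noncomputable def nest {I J K : Type} (is : List I) (js : List J) (ks : List K)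
    (A : I → J → K → Finset Ω) : (Ω → ℝ) → ℝ :=
  maxL (is.map fun i => addL (js.map fun j => maxL (ks.map fun k => tot (A i j k))))

theorem computes_nest [Fintype Ω] {I J K : Type} (is : List I) (js : List J) (ks : List K)
    (A : I → J → K → Finset Ω) {M : ℕ}
    (hM : (((is.flatMap fun i => js.flatMap fun j => ks.map fun k => A i j k)).map
      Finset.card).sum ≤ M) :
    Computes (nest is js ks A) (1 + Fintype.card Ω + M + is.length * (js.length * ks.length) +
      is.length * js.length + is.length) := by
  obtain ⟨l₁, h1, h2, h3, h4⟩ := load (Ω := Ω) (Prog.cst _ 0 Prog.nil) univ.toList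
  have h01 : (fun _ => (0 : ℝ)) ∈ l₁ := h2 _ (by simp)
  obtain ⟨l₂, h5, h6, h7, h8⟩ := sums h1 h01 (fun e => h4 e (by simp))
    (is.flatMap fun i => js.flatMap fun j => ks.map fun k => A i j k)
  have hA : ∀ i ∈ is, ∀ j ∈ js, ∀ k ∈ ks, tot (A i j k) ∈ l₂ := by
    intro i hi j hj k hk
    refine h8 _ ?_
    rw [List.mem_flatMap]
    refine ⟨i, hi, ?_⟩
    rw [List.mem_flatMap]
    exact ⟨j, hj, List.mem_map.2 ⟨k, hk, rfl⟩⟩
  -- the inner maxima
  obtain ⟨l₃, h9, h10, h11, h12⟩ := many (ι := {i // i ∈ is} × {j // j ∈ js}) l₂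
    (fun ij => maxL (ks.map fun k => tot (A ij.1.1 ij.2.1 k))) ks.length (by
      rintro ⟨⟨i, hi⟩, ⟨j, hj⟩⟩ l hl hb
      obtain ⟨l', a1, a2, a3, a4⟩ := fold_max hl (fun _ => 0) (hb _ (h6 _ h01))
        (ks.map fun k => tot (A i j k)) (fun g hg => by
          obtain ⟨k, hk, rfl⟩ := List.mem_map.1 hg
          exact hb _ (hA i hi j hj k hk))
      exact ⟨l', a1, a2, by rw [a3, List.length_map], a4⟩)
    (is.attach ×ˢ js.attach) l₂ h5 (fun _ h => h)
  -- the sums
  obtain ⟨l₄, h13, h14, h15, h16⟩ := many (ι := {i // i ∈ is}) l₃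
    (fun i => addL (js.map fun j => maxL (ks.map fun k => tot (A i.1 j k)))) js.length (by
      rintro ⟨i, hi⟩ l hl hb
      obtain ⟨l', a1, a2, a3, a4⟩ := fold_add hl (fun _ => 0) (hb _ (h10 _ (h6 _ h01)))
        (js.map fun j => maxL (ks.map fun k => tot (A i j k))) (fun g hg => by
          obtain ⟨j, hj, rfl⟩ := List.mem_map.1 hg
          exact hb _ (h12 (⟨i, hi⟩, ⟨j, hj⟩) (
            List.mem_product.2 ⟨List.mem_attach _ _, List.mem_attach _ _⟩)))
      exact ⟨l', a1, a2, by rw [a3, List.length_map], a4⟩)
    is.attach l₃ h9 (fun _ h => h)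
  -- the outer maximum
  obtain ⟨l₅, b1, b2, b3, b4⟩ := fold_max h13 (fun _ => 0) (h14 _ (h10 _ (h6 _ h01)))
    (is.map fun i => addL (js.map fun j => maxL (ks.map fun k => tot (A i j k)))) (fun g hg => by
      obtain ⟨i, hi, rfl⟩ := List.mem_map.1 hg
      exact h16 ⟨i, hi⟩ (List.mem_attach _ _))
  refine ⟨l₅, b1, b4, ?_⟩
  rw [b3, h15, h11, h7, h3, List.length_map, List.length_attach, length_toList, card_univ]
  have : (is.attach ×ˢ js.attach).length = is.length * js.length := by
    rw [List.length_product, List.length_attach, List.length_attach]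
  rw [this]
  simp only [List.length_cons, List.length_nil]
  nlinarith [hM]

theorem sum_card_flatMap {I J K : Type} (is : List I) (js : List J) (ks : List K)
    (A : I → J → K → Finset Ω) :
    (((is.flatMap fun i => js.flatMap fun j => ks.map fun k => A i j k)).map Finset.card).sum =
      (is.map fun i => (js.map fun j => (ks.map fun k => (A i j k).card).sum).sum).sum := by
  induction is with
  | nil => rfl
  | cons i is ih =>
    rw [List.flatMap_cons, List.map_append, List.sum_append, ih, List.map_cons, List.sum_cons]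
    congr 1
    clear ih
    induction js with
    | nil => rfl
    | cons j js ih2 =>
      rw [List.flatMap_cons, List.map_append, List.sum_append, List.map_cons, List.sum_cons, ih2,
        List.map_map]
      rfl

end general

section games

variable {n : ℕ} {p : ℕ → Prop} {β α : Type} [Fintype β] [Fintype α] [DecidableEq β]
  [DecidableEq α]

open Classical in
/-- the constraints with target `t` whose map takes the value `x` at `y` -/
noncomputable def block (y : β) (t : Fin n) (x : α) : Finset (Con n p β α) :=
  univ.filter fun e => e.2.1 = t ∧ e.2.2.1 y = x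

/-- all sources get the same label, the labels of the targets are the best possible ones -/
noncomputable def prog (n : ℕ) (p : ℕ → Prop) (β α : Type) [Fintype β] [Fintype α]
    [DecidableEq β] [DecidableEq α] : (Con n p β α → ℝ) → ℝ :=
  nest (univ : Finset β).toList (univ : Finset (Fin n)).toList (univ : Finset α).toList
    fun y t x => block y t x

theorem sum_block (y : β) :
    ∑ t : Fin n, ∑ x : α, (block y t x : Finset (Con n p β α)).card =
      n ^ 2 * Fintype.card (Fam p β α) := by
  classical
  have h1 : Fintype.card (Con n p β α) =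
      ∑ tx : Fin n × α, (block y tx.1 tx.2 : Finset (Con n p β α)).card := by
    rw [← card_univ, card_eq_sum_card_fiberwise (f := fun e : Con n p β α => (e.2.1, e.2.2.1 y))
      (t := univ) (fun _ _ => mem_univ _)]
    refine sum_congr rfl fun tx _ => ?_
    congr 1
    ext e
    simp only [block, mem_filter, mem_univ, true_and, Prod.ext_iff]
  rw [← Fintype.sum_prod_type', ← h1]
  simp only [Con, Fintype.card_prod, Fintype.card_fin]
  ring

theorem prog_computes : Computes (prog n p β α)
    (1 + n ^ 2 * Fintype.card (Fam p β α) + Fintype.card β * (n ^ 2 * Fintype.card (Fam p β α)) +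
      Fintype.card β * (n * Fintype.card α) + Fintype.card β * n + Fintype.card β) := by
  have h := computes_nest (univ : Finset β).toList (univ : Finset (Fin n)).toList
    (univ : Finset α).toList (fun y t x => (block y t x : Finset (Con n p β α)))
    (M := Fintype.card β * (n ^ 2 * Fintype.card (Fam p β α))) (by
      rw [sum_card_flatMap]
      simp only [sum_map_toList]
      rw [sum_congr rfl fun y _ => sum_block y, sum_const, card_univ, smul_eq_mul])
  have h2 : Fintype.card (Con n p β α) = n ^ 2 * Fintype.card (Fam p β α) := by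
    simp only [Con, Fintype.card_prod, Fintype.card_fin]
    ring
  simp only [length_toList, card_univ, Fintype.card_fin, h2] at h
  exact h

open Classical in
theorem val_eq (z : Labeling n β α) (w : Con n p β α → ℝ) :
    val z w = ∑ t : Fin n, ∑ e ∈ univ.filter (fun e : Con n p β α => e.2.1 = t ∧ Sats z e), w e := by
  rw [val, ← sum_fiberwise (univ.filter (Sats z)) (fun e : Con n p β α => e.2.1)]
  refine sum_congr rfl fun t _ => ?_
  rw [filter_filter]
  refine sum_congr ?_ fun _ _ => rfl
  ext e
  simp only [mem_filter, mem_univ, true_and, and_comm]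

theorem val_nonneg (z : Labeling n β α) {w : Con n p β α → ℝ} (hw : ∀ e, 0 ≤ w e) :
    0 ≤ val z w := sum_nonneg fun e _ => hw e

theorem prog_sound [Nonempty α] [Nonempty β] (w : Con n p β α → ℝ) (hw : ∀ e, 0 ≤ w e) :
    ∃ z : Labeling n β α, prog n p β α w ≤ val z w := by
  classical
  rcases maxL_cases (gs := ((univ : Finset β).toList.map fun y =>
      addL ((univ : Finset (Fin n)).toList.map fun t =>
        maxL ((univ : Finset α).toList.map fun x => tot (block y t x : Finset (Con n p β α)))))) w
    with h | ⟨g, hg, h⟩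
  · refine ⟨(fun _ => Classical.arbitrary β, fun _ => Classical.arbitrary α), ?_⟩
    rw [prog, nest, h]
    exact val_nonneg _ hw
  · obtain ⟨y, _, rfl⟩ := List.mem_map.1 hg
    have h1 : ∀ t : Fin n, ∃ x : α, maxL ((univ : Finset α).toList.map fun x =>
        tot (block y t x : Finset (Con n p β α))) w ≤ tot (block y t x) w := by
      intro t
      rcases maxL_cases (gs := ((univ : Finset α).toList.map fun x =>
        tot (block y t x : Finset (Con n p β α)))) w with h2 | ⟨g', hg', h2⟩
      · exact ⟨Classical.arbitrary α, by rw [h2]; exact sum_nonneg fun e _ => hw e⟩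
      · obtain ⟨x, _, rfl⟩ := List.mem_map.1 hg'
        exact ⟨x, h2.le⟩
    choose x hx using h1
    refine ⟨(fun _ => y, x), ?_⟩
    rw [prog, nest, h, addL_eq, List.map_map, sum_map_toList, val_eq]
    refine sum_le_sum fun t _ => (hx t).trans (le_of_eq ?_)
    rw [tot]
    refine sum_congr ?_ fun _ _ => rfl
    ext e
    rw [block, mem_filter, mem_filter]
    constructor
    · rintro ⟨h2, h3, h4⟩
      exact ⟨h2, h3, by rw [Sats, h3]; exact h4⟩
    · rintro ⟨h2, h3, h4⟩
      exact ⟨h2, h3, by rw [Sats, h3] at h4; exact h4⟩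

open Classical in
theorem prog_good {d : ℕ}
    (hfib : ∀ (π : Fam p β α) (x : α), (univ.filter fun y => π.1 y = x).card = 0 ∨
      (univ.filter fun y => π.1 y = x).card = d) (hβ : 0 < Fintype.card β)
    (w : Con n p β α → ℝ) (hw : ∀ e, 0 ≤ w e) (z : Labeling n β α) :
    d / Fintype.card β * val z w ≤ prog n p β α w := by
  have h1 : ∀ y : β, ∑ t : Fin n, tot (block y t (z.2 t) : Finset (Con n p β α)) w ≤
      prog n p β α w := by
    intro y
    have h2 : addL ((univ : Finset (Fin n)).toList.map fun t =>
        maxL ((univ : Finset α).toList.map fun x => tot (block y t x : Finset (Con n p β α)))) w ≤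
        prog n p β α w := le_maxL _ (List.mem_map.2 ⟨y, by simp, rfl⟩)
    refine le_trans ?_ h2
    rw [addL_eq, List.map_map, sum_map_toList]
    refine sum_le_sum fun t _ => ?_
    exact le_maxL (gs := ((univ : Finset α).toList.map fun x =>
      tot (block y t x : Finset (Con n p β α)))) (w := w) _ (List.mem_map.2 ⟨z.2 t, by simp, rfl⟩)
  have h3 : ∑ y : β, ∑ t : Fin n, tot (block y t (z.2 t) : Finset (Con n p β α)) w ≤
      Fintype.card β * prog n p β α w := by
    calc _ ≤ ∑ _y : β, prog n p β α w := sum_le_sum fun y _ => h1 y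
      _ = _ := by rw [sum_const, card_univ, nsmul_eq_mul]
  have h4 : ∑ y : β, ∑ t : Fin n, tot (block y t (z.2 t) : Finset (Con n p β α)) w =
      ∑ e : Con n p β α, (univ.filter fun y => e.2.2.1 y = z.2 e.2.1).card * w e := by
    have h5 : ∀ y : β, ∑ t : Fin n, tot (block y t (z.2 t) : Finset (Con n p β α)) w =
        ∑ e : Con n p β α, if e.2.2.1 y = z.2 e.2.1 then w e else 0 := by
      intro y
      rw [← sum_fiberwise univ (fun e : Con n p β α => e.2.1)]
      refine sum_congr rfl fun t _ => ?_
      rw [tot, ← sum_filter, filter_filter]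
      refine sum_congr ?_ fun _ _ => rfl
      ext e
      simp only [block, mem_filter, mem_univ, true_and]
      constructor
      · rintro ⟨h3, h4⟩
        exact ⟨h3, by rw [h3]; exact h4⟩
      · rintro ⟨h3, h4⟩
        exact ⟨h3, by rw [← h3]; exact h4⟩
    rw [sum_congr rfl fun y _ => h5 y, sum_comm]
    refine sum_congr rfl fun e _ => ?_
    rw [← sum_filter, sum_const, nsmul_eq_mul]
  have h6 : d * val z w ≤
      ∑ e : Con n p β α, (univ.filter fun y => e.2.2.1 y = z.2 e.2.1).card * w e := by
    rw [val, mul_sum, ← sum_filter_add_sum_filter_not univ (Sats z)]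
    have h7 : 0 ≤ ∑ e ∈ univ.filter (fun e : Con n p β α => ¬ Sats z e),
        ((univ.filter fun y => e.2.2.1 y = z.2 e.2.1).card : ℝ) * w e :=
      sum_nonneg fun e _ => mul_nonneg (Nat.cast_nonneg _) (hw e)
    have h8 : ∑ e ∈ univ.filter (Sats z), (d : ℝ) * w e ≤
        ∑ e ∈ univ.filter (Sats z), ((univ.filter fun y => e.2.2.1 y = z.2 e.2.1).card : ℝ) * w e := by
      refine sum_le_sum fun e he => ?_
      rw [mem_filter] at he
      have h9 : 0 < (univ.filter fun y => e.2.2.1 y = z.2 e.2.1).card :=
        card_pos.2 ⟨z.1 e.1, mem_filter.2 ⟨mem_univ _, he.2⟩⟩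
      rcases hfib e.2.2 (z.2 e.2.1) with h10 | h10
      · omega
      · rw [h10]
    linarith
  have h0 : (0 : ℝ) < Fintype.card β := by exact_mod_cast hβ
  rw [div_mul_eq_mul_div, div_le_iff₀ h0]
  rw [h4] at h3
  linarith

open Classical in
/-- brute force -/
noncomputable def brute (n : ℕ) (p : ℕ → Prop) (β α : Type) [Fintype β] [Fintype α]
    [DecidableEq β] [DecidableEq α] : (Con n p β α → ℝ) → ℝ :=
  maxTot ((univ : Finset (Labeling n β α)).toList.map fun z => univ.filter (Sats z))

theorem brute_computes : Computes (brute n p β α)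
    (1 + n ^ 2 * Fintype.card (Fam p β α) +
      (Fintype.card β * Fintype.card α) ^ n * (n ^ 2 * Fintype.card (Fam p β α)) +
      (Fintype.card β * Fintype.card α) ^ n) := by
  classical
  obtain ⟨l, h1, h2, h3⟩ := computes_maxTot ((univ : Finset (Labeling n β α)).toList.map
    fun z => (univ.filter (Sats z) : Finset (Con n p β α)))
  have h4 : Fintype.card (Con n p β α) = n ^ 2 * Fintype.card (Fam p β α) := by
    simp only [Con, Fintype.card_prod, Fintype.card_fin]
    ring
  have h5 : Fintype.card (Labeling n β α) = (Fintype.card β * Fintype.card α) ^ n := by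
    simp only [Labeling, Fintype.card_prod, Fintype.card_fun, Fintype.card_fin]
    rw [← mul_pow]
  refine ⟨l, h1, h2, h3.trans ?_⟩
  rw [List.length_map, length_toList, card_univ, h5, h4, List.map_map]
  have h6 : ∑ z : Labeling n β α, (Finset.card ∘ fun z : Labeling n β α =>
      (univ.filter (Sats z) : Finset (Con n p β α))) z ≤
      (Fintype.card β * Fintype.card α) ^ n * (n ^ 2 * Fintype.card (Fam p β α)) := by
    rw [← h4, ← h5, ← smul_eq_mul, ← card_univ, ← sum_const]
    exact sum_le_sum fun z _ => card_le_univ _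
  rw [← sum_map_toList] at h6
  exact Nat.add_le_add (Nat.add_le_add_left h6 _) le_rfl

theorem brute_exact [Nonempty α] [Nonempty β] (w : Con n p β α → ℝ) (hw : ∀ e, 0 ≤ w e) :
    (∃ z : Labeling n β α, brute n p β α w ≤ val z w) ∧
      ∀ z : Labeling n β α, val z w ≤ brute n p β α w := by
  classical
  constructor
  · rcases maxTot_le (As := ((univ : Finset (Labeling n β α)).toList.map
      fun z => (univ.filter (Sats z) : Finset (Con n p β α)))) w with h | ⟨A, hA, h⟩
    · refine ⟨(fun _ => Classical.arbitrary β, fun _ => Classical.arbitrary α), ?_⟩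
      rw [brute, h]
      exact val_nonneg _ hw
    · obtain ⟨z, _, rfl⟩ := List.mem_map.1 hA
      exact ⟨z, by rw [brute, h]; exact le_rfl⟩
  · intro z
    exact le_maxTot (As := ((univ : Finset (Labeling n β α)).toList.map
      fun z => (univ.filter (Sats z) : Finset (Con n p β α)))) (w := w) _
      (List.mem_map.2 ⟨z, by simp, rfl⟩)

end games

end Pool.Agent.Y643.PG
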